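import Pool.Agent.Lib.MP_e06cf1_nt.Proof

open Polynomial

namespace Pool.Agent.Results.MP_e06cf1_nt.Counterexample

/-- `g (x + y) = g x + g y` as polynomials in two variables. -/
def IsAdditivePoly {K : Type} [Field K] (g : K[X]) : Prop :=
  (Polynomial.aeval (MvPolynomial.X 0 + MvPolynomial.X 1 : MvPolynomial (Fin 2) K) g) =
    Polynomial.aeval (MvPolynomial.X 0 : MvPolynomial (Fin 2) K) g +
      Polynomial.aeval (MvPolynomial.X 1 : MvPolynomial (Fin 2) K) g

/-- The set of parameters for which both forward orbits pass through `β`. -/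
def collisionSet {K : Type} [Field K] (g : K[X]) (α₁ α₂ β : K) : Set K :=
  {l | ∃ m n : ℕ, 1 ≤ m ∧ 1 ≤ n ∧
    (fun z => g.eval z + l)^[m] α₁ = β ∧ (fun z => g.eval z + l)^[n] α₂ = β}

lemma additive_fun {K : Type} [Field K] (g : K[X]) (h : IsAdditivePoly g) (x y : K) :
    g.eval (x + y) = g.eval x + g.eval y := by
  have := congrArg (MvPolynomial.aeval (R := K) (![x, y] : Fin 2 → K)) h
  simp only [map_add, ← Polynomial.aeval_algHom_apply, MvPolynomial.aeval_X, Matrix.cons_val_zero,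
    Matrix.cons_val_one, Polynomial.coe_aeval_eq_eval] at this
  exact this

theorem result :
    ∀ (p : ℕ) [Fact p.Prime] (K : Type) [Field K] [Algebra (ZMod p) K] [IsAlgClosure (ZMod p) K],
      ∃ (g : K[X]) (α₁ α₂ β : K),
      2 ≤ g.natDegree ∧ ¬ IsAdditivePoly g ∧ (∀ c, ¬ IsAdditivePoly (g + C c)) ∧
        collisionSet g α₁ α₂ β = ∅ := by
  intro p _ K _ _ _
  have : IsAlgClosed K := IsAlgClosure.isAlgClosed (ZMod p)
  have : CharP K p := charP_of_injective_algebraMap (algebraMap (ZMod p) K).injective p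
  obtain ⟨ω, hω⟩ := Pool.Agent.Lib.MP_e06cf1_nt.wp_surj p K 1
  have hna : ∀ c, ¬ IsAdditivePoly
      (Pool.Agent.Lib.MP_e06cf1_nt.gp p K + C c) := by
    intro c h
    apply Pool.Agent.Lib.MP_e06cf1_nt.not_additive_fun p K c
    intro x y
    have := additive_fun _ h x y
    simpa using this
  refine ⟨Pool.Agent.Lib.MP_e06cf1_nt.gp p _, 1, ω, 0, ?_, ?_, hna, ?_⟩
  · by_contra hlt
    have hle : (Pool.Agent.Lib.MP_e06cf1_nt.gp p K).natDegree ≤ 1 := by
      omega
    have e := Polynomial.eq_X_add_C_of_natDegree_le_one hle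
    apply hna (-(Pool.Agent.Lib.MP_e06cf1_nt.gp p K).coeff 0)
    generalize (Pool.Agent.Lib.MP_e06cf1_nt.gp p K).coeff 0 = b at e ⊢
    rw [e]
    unfold IsAdditivePoly
    simp only [map_add, map_mul, aeval_C, aeval_X, map_neg]
    ring
  · simpa using hna 0
  · ext l
    simp only [collisionSet, Set.mem_ofPred_eq, Set.mem_empty_iff_false, iff_false]
    rintro ⟨m, n, hm, -, h1, h2⟩
    exact Pool.Agent.Lib.MP_e06cf1_nt.no_collision p _ ω hω l hm h1 h2

end Pool.Agent.Results.MP_e06cf1_nt.Counterexample
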